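import Pool.Agent.P8H54.GL.Lq
import Pool.Agent.P8H89.CF.Cs

/-! # Project GL, package GLCS: the sum over the moduli -/

set_option autoImplicit false

namespace Pool.Agent.P8H54.GL

open Finset
open Pool.Agent.P8H14.CF (e rr pr)
open Pool.Agent.P8H14.GL

theorem Li_mul (a b : ℕ) : Li ((a * b : ℕ) : ℤ) = Li (a : ℤ) * Li (b : ℤ) := by
  unfold Li
  by_cases ha : a = 0
  · subst ha
    simp
  by_cases hb : b = 0
  · subst hb
    simp
  have h1 : ((a * b : ℕ) : ℤ) ≠ 0 := by exact_mod_cast Nat.mul_ne_zero ha hb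
  have h2 : (a : ℤ) ≠ 0 := by exact_mod_cast ha
  have h3 : (b : ℤ) ≠ 0 := by exact_mod_cast hb
  rw [if_neg h1, if_neg h2, if_neg h3, Int.natAbs_natCast, Int.natAbs_natCast, Int.natAbs_natCast,
    ArithmeticFunction.cardFactors_mul ha hb, pow_add]

theorem Li_norm (m : ℤ) : ‖(Li m : ℂ)‖ ≤ 1 := by
  rw [Complex.norm_real, Real.norm_eq_abs]
  unfold Li
  split_ifs
  · simp
  · rw [abs_pow, abs_neg, abs_one, one_pow]

theorem sum_multiples {c : ℕ} (hc : 0 < c) (Z : ℕ) (g : ℕ → ℂ) :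
    ∑ m ∈ Icc 1 Z, (if c ∣ m then g m else 0) = ∑ m ∈ Icc 1 (Z / c), g (c * m) := by
  rw [← sum_filter]
  symm
  refine sum_bij' (fun b _ => c * b) (fun a _ => a / c) ?_ ?_ ?_ ?_ ?_
  · intro b hb
    rw [mem_Icc] at hb
    rw [mem_filter, mem_Icc]
    refine ⟨⟨Nat.mul_pos hc hb.1, ?_⟩, dvd_mul_right c b⟩
    have h1 := (Nat.le_div_iff_mul_le hc).1 hb.2
    rw [mul_comm]
    exact h1
  · intro a ha
    rw [mem_filter, mem_Icc] at ha
    rw [mem_Icc]
    exact ⟨Nat.div_pos (Nat.le_of_dvd ha.1.1 ha.2) hc, Nat.div_le_div_right ha.1.2⟩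
  · intro b _
    exact Nat.mul_div_cancel_left _ hc
  · intro a ha
    rw [mem_filter] at ha
    exact Nat.mul_div_cancel' ha.2
  · intro b _
    rfl

/-- removing the condition `(m, t) = 1` -/
theorem char_split {r t : ℕ} (ht : 0 < t) (ψ : DirichletCharacter ℂ r) (Z : ℕ) :
    ‖∑ m ∈ (Icc 1 Z).filter (fun m => m.Coprime (r * t)), (Li (m : ℤ) : ℂ) * ψ (m : ZMod r)‖ ≤
      ∑ c ∈ t.divisors, ‖∑ m ∈ Icc 1 (Z / c), (Li (m : ℤ) : ℂ) * ψ (m : ZMod r)‖ := by
  have h1 : ∑ m ∈ (Icc 1 Z).filter (fun m => m.Coprime (r * t)), (Li (m : ℤ) : ℂ) * ψ (m : ZMod r) =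
      ∑ c ∈ t.divisors, (((ArithmeticFunction.moebius c : ℤ) : ℂ) * ((Li (c : ℤ) : ℂ) * ψ (c : ZMod r))) *
        ∑ m ∈ Icc 1 (Z / c), (Li (m : ℤ) : ℂ) * ψ (m : ZMod r) := by
    have h2 : ∑ m ∈ (Icc 1 Z).filter (fun m => m.Coprime (r * t)), (Li (m : ℤ) : ℂ) * ψ (m : ZMod r) =
        ∑ m ∈ Icc 1 Z, (if m.Coprime t then (1 : ℂ) else 0) * ((Li (m : ℤ) : ℂ) * ψ (m : ZMod r)) := by
      rw [sum_filter]
      refine sum_congr rfl fun m _ => ?_
      by_cases hmt : m.Coprime t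
      · by_cases hmr : m.Coprime r
        · rw [if_pos (hmr.mul_right hmt), if_pos hmt, one_mul]
        · have h0 : ψ (m : ZMod r) = 0 := ψ.map_nonunit (fun hu => hmr ((ZMod.isUnit_iff_coprime m r).1 hu))
          rw [h0]
          simp
      · rw [if_neg hmt, if_neg (fun h => hmt (Nat.Coprime.coprime_mul_left_right h)), zero_mul]
    rw [h2]
    have h3 : ∀ m ∈ Icc 1 Z, (if m.Coprime t then (1 : ℂ) else 0) * ((Li (m : ℤ) : ℂ) * ψ (m : ZMod r)) =
        ∑ c ∈ t.divisors, ((ArithmeticFunction.moebius c : ℤ) : ℂ) *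
          (if c ∣ m then (Li (m : ℤ) : ℂ) * ψ (m : ZMod r) else 0) := by
      intro m _
      rw [Pool.Agent.P8H14.QP.coprime_ind ht, sum_mul]
      refine sum_congr rfl fun c _ => ?_
      split_ifs <;> simp
    rw [sum_congr rfl h3, sum_comm]
    refine sum_congr rfl fun c hc => ?_
    have hc0 : 0 < c := Nat.pos_of_mem_divisors hc
    rw [← mul_sum, sum_multiples hc0, mul_assoc]
    congr 1
    rw [mul_sum]
    refine sum_congr rfl fun m _ => ?_
    rw [Li_mul]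
    push_cast
    rw [map_mul]
    ring
  rw [h1]
  refine (norm_sum_le _ _).trans (sum_le_sum fun c _ => ?_)
  rw [norm_mul, norm_mul, norm_mul]
  have h3 : ‖((ArithmeticFunction.moebius c : ℤ) : ℂ)‖ ≤ 1 := by
    rw [Complex.norm_intCast]
    exact_mod_cast ArithmeticFunction.abs_moebius_le_one
  have h4 : ‖(Li (c : ℤ) : ℂ)‖ * ‖ψ (c : ZMod r)‖ ≤ 1 :=
    mul_le_one₀ (Li_norm _) (norm_nonneg _) (DirichletCharacter.norm_le_one ψ _)
  exact mul_le_of_le_one_left (norm_nonneg _) (mul_le_one₀ h3 (by positivity) h4)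

/-- sorting by the greatest common divisor -/
theorem gcd_split {q : ℕ} (hq : 0 < q) (Y : ℕ) (F : ℕ → ℂ) :
    ∑ m ∈ Icc 1 Y, F m = ∑ l ∈ q.divisors, ∑ m ∈ (Icc 1 (Y / l)).filter (fun m => m.Coprime (q / l)), F (l * m) := by
  classical
  have h1 : ∀ m ∈ Icc 1 Y, Nat.gcd m q ∈ q.divisors := fun m _ =>
    Nat.mem_divisors.2 ⟨Nat.gcd_dvd_right m q, hq.ne'⟩
  rw [← sum_fiberwise_of_maps_to h1]
  refine sum_congr rfl fun l hl => ?_
  have hl0 : 0 < l := Nat.pos_of_mem_divisors hl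
  have hlq := Nat.dvd_of_mem_divisors hl
  symm
  refine sum_bij' (fun b _ => l * b) (fun a _ => a / l) ?_ ?_ ?_ ?_ ?_
  · intro b hb
    rw [mem_filter, mem_Icc] at hb
    rw [mem_filter, mem_Icc]
    refine ⟨⟨Nat.mul_pos hl0 hb.1.1, ?_⟩, ?_⟩
    · have h2 := (Nat.le_div_iff_mul_le hl0).1 hb.1.2
      rw [mul_comm]
      exact h2
    · have h3 : q = l * (q / l) := (Nat.mul_div_cancel' hlq).symm
      have h4 : Nat.gcd (l * b) (l * (q / l)) = l := by
        rw [Nat.gcd_mul_left, hb.2, mul_one]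
      rw [← h3] at h4
      exact h4
  · intro a ha
    rw [mem_filter, mem_Icc] at ha
    rw [mem_filter, mem_Icc]
    have hla : l ∣ a := by rw [← ha.2]; exact Nat.gcd_dvd_left a q
    refine ⟨⟨Nat.div_pos (Nat.le_of_dvd ha.1.1 hla) hl0, Nat.div_le_div_right ha.1.2⟩, ?_⟩
    have h5 := Nat.coprime_div_gcd_div_gcd (m := a) (n := q) (by rw [ha.2]; exact hl0)
    rw [ha.2] at h5
    exact h5
  · intro b _
    exact Nat.mul_div_cancel_left _ hl0
  · intro a ha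
    rw [mem_filter] at ha
    have hla : l ∣ a := by rw [← ha.2]; exact Nat.gcd_dvd_left a q
    exact Nat.mul_div_cancel' hla
  · intro b _
    rfl

theorem sum_div_le (Q : ℕ) (F : ℕ → ℕ → ℝ) (hF : ∀ a b, 0 ≤ F a b) :
    ∑ n ∈ Icc 1 Q, ∑ j ∈ n.divisors, F j (n / j) ≤ ∑ j ∈ Icc 1 Q, ∑ i ∈ Icc 1 Q, F j i := by
  have h1 : ∀ n ∈ Icc 1 Q, ∑ j ∈ n.divisors, F j (n / j) ≤
      ∑ j ∈ Icc 1 Q, ∑ i ∈ Icc 1 Q, (if j * i = n then F j i else 0) := by
    intro n hn
    rw [mem_Icc] at hn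
    have hsub : n.divisors ⊆ Icc 1 Q := by
      intro j hj
      rw [mem_Icc]
      exact ⟨Nat.pos_of_mem_divisors hj, (Nat.divisor_le hj).trans hn.2⟩
    refine le_trans (sum_le_sum fun j hj => ?_) (sum_le_sum_of_subset_of_nonneg hsub
      fun j _ _ => sum_nonneg fun i _ => ?_)
    · have hjn := Nat.dvd_of_mem_divisors hj
      have hj0 := Nat.pos_of_mem_divisors hj
      have hk : n / j ∈ Icc 1 Q := by
        rw [mem_Icc]
        exact ⟨Nat.div_pos (Nat.le_of_dvd hn.1 hjn) hj0, (Nat.div_le_self n j).trans hn.2⟩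
      have h4 := Finset.single_le_sum (f := fun i => if j * i = n then F j i else 0)
        (fun i _ => by
          change 0 ≤ (if j * i = n then F j i else 0)
          split_ifs
          · exact hF j i
          · exact le_rfl) hk
      have h5 : j * (n / j) = n := Nat.mul_div_cancel' hjn
      rw [if_pos h5] at h4
      exact h4
    · split_ifs
      · exact hF j i
      · exact le_rfl
  refine (sum_le_sum h1).trans ?_
  rw [sum_comm]
  refine sum_le_sum fun j _ => ?_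
  rw [sum_comm]
  refine sum_le_sum fun i _ => ?_
  rw [Finset.sum_ite_eq]
  split_ifs
  · exact le_rfl
  · exact hF j i

theorem sum_prod_le (Q : ℕ) (H : ℕ → ℝ) (hH : ∀ n, 0 ≤ H n) :
    ∑ t ∈ Icc 1 Q, ∑ l ∈ Icc 1 Q, H (t * l) ≤ ∑ n ∈ Icc 1 (Q * Q), (n.divisors.card : ℝ) * H n := by
  have h1 : ∑ t ∈ Icc 1 Q, ∑ l ∈ Icc 1 Q, H (t * l) =
      ∑ n ∈ Icc 1 (Q * Q), ∑ t ∈ Icc 1 Q, ∑ l ∈ Icc 1 Q, if t * l = n then H n else 0 := by
    symm
    rw [sum_comm]
    refine sum_congr rfl fun t ht => ?_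
    rw [sum_comm]
    refine sum_congr rfl fun l hl => ?_
    rw [Finset.sum_ite_eq, if_pos]
    rw [mem_Icc] at ht hl ⊢
    exact ⟨Nat.mul_pos ht.1 hl.1, Nat.mul_le_mul ht.2 hl.2⟩
  rw [h1]
  refine sum_le_sum fun n hn => ?_
  rw [mem_Icc] at hn
  have h2 : ∀ t ∈ Icc 1 Q, ∑ l ∈ Icc 1 Q, (if t * l = n then H n else 0) ≤ if t ∣ n then H n else 0 := by
    intro t ht
    rw [mem_Icc] at ht
    by_cases htn : t ∣ n
    · rw [if_pos htn]
      have h3 : ∀ l ∈ Icc 1 Q, (if t * l = n then H n else 0) = if l = n / t then H n else 0 := by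
        intro l _
        have h4 : t * l = n ↔ l = n / t := by
          constructor
          · rintro rfl
            exact (Nat.mul_div_cancel_left _ ht.1).symm
          · rintro rfl
            exact Nat.mul_div_cancel' htn
        simp only [h4]
      rw [sum_congr rfl h3, Finset.sum_ite_eq']
      split_ifs
      · exact le_rfl
      · exact hH n
    · rw [if_neg htn]
      apply le_of_eq
      refine sum_eq_zero fun l _ => ?_
      rw [if_neg]
      rintro rfl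
      exact htn (dvd_mul_right t l)
  refine (sum_le_sum h2).trans ?_
  rw [← sum_filter, sum_const, nsmul_eq_mul]
  refine mul_le_mul_of_nonneg_right ?_ (hH n)
  have h5 : (Icc 1 Q).filter (fun t => t ∣ n) ⊆ n.divisors := by
    intro t ht
    rw [mem_filter] at ht
    exact Nat.mem_divisors.2 ⟨ht.2, by omega⟩
  exact_mod_cast card_le_card h5

theorem harm {Q : ℕ} : ∑ k ∈ Icc 1 Q, (k : ℝ)⁻¹ ≤ 1 + Real.log Q := by
  have h3 := harmonic_le_one_add_log Q
  rw [harmonic_eq_sum_Icc] at h3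
  push_cast at h3
  exact h3

theorem card_div_mul (a b : ℕ) : (a * b).divisors.card ≤ a.divisors.card * b.divisors.card := by
  classical
  rw [Nat.divisors_mul]
  exact Finset.card_mul_le

/-- **GLCS.** -/
theorem glcs : S_GLQ → S_GRHO → S_GLCS := by
  intro hGLQ hGRHO f hf
  obtain ⟨C, hC, K, hK⟩ := hGRHO f hf
  refine ⟨36 * 2 ^ K * C, by positivity, K + 5, ?_⟩
  intro Q M A s δ hQ hs hδ hhyp Y hY
  have hQ1 : (1 : ℝ) ≤ Q := by exact_mod_cast hQ
  have hlog : 0 ≤ Real.log Q := Real.log_natCast_nonneg Q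
  obtain ⟨L, hL⟩ : ∃ L : ℝ, L = 1 + Real.log Q := ⟨_, rfl⟩
  have hL1 : 1 ≤ L := by linarith
  obtain ⟨D, hD⟩ : ∃ D : ℕ → ℝ, ∀ n, D n = ∑ j ∈ n.divisors, (rho f A j : ℝ) := ⟨_, fun _ => rfl⟩
  have hD0 : ∀ n, 0 ≤ D n := fun n => by rw [hD]; exact sum_nonneg fun _ _ => Nat.cast_nonneg _
  obtain ⟨B, hB⟩ : ∃ B : ℕ → ℕ → ℝ, ∀ r Z, B r Z = ∑ ψ ∈ pr r, ‖∑ m ∈ Icc 1 Z, (Li (m : ℤ) : ℂ) * ψ (m : ZMod r)‖ :=
    ⟨_, fun _ _ => rfl⟩
  have hB0 : ∀ r Z, 0 ≤ B r Z := fun r Z => by rw [hB]; exact sum_nonneg fun _ _ => norm_nonneg _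
  obtain ⟨W, hW⟩ : ∃ W : ℕ → ℕ → ℕ → ℝ, ∀ r t l, W r t l = ((r : ℝ) / r.totient) * (1 / (t.totient : ℝ)) * D (t * l) *
      ∑ c ∈ t.divisors, B r (Y / l / c) := ⟨_, fun _ _ _ => rfl⟩
  have hW0 : ∀ r t l, 0 ≤ W r t l := fun r t l => by
    rw [hW]
    exact mul_nonneg (mul_nonneg (by positivity) (hD0 _)) (sum_nonneg fun _ _ => hB0 _ _)
  -- one modulus and one greatest common divisor
  have hone : ∀ k l : ℕ, 1 ≤ k → 1 ≤ l →
      ‖∑ a ∈ rr (k * l), G f a (k * l) / ((k * l : ℕ) : ℂ) * e ((a : ℝ) * (A : ℤ) / ((k * l : ℕ) : ℝ)) *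
        ∑ m ∈ (Icc 1 (Y / l)).filter (fun m => m.Coprime k), (Li (m : ℤ) : ℂ) * e (s * ((a : ℝ) * m / k))‖ ≤
      ∑ r ∈ k.divisors, W r (k / r) l := by
    intro k l hk hl
    refine (hGLQ f A k l s hk hl hs _ _ (fun m hm => (mem_filter.1 hm).2)).trans ?_
    rw [sum_filter]
    refine sum_le_sum fun r hr => ?_
    split_ifs with hc
    · obtain ⟨t, ht⟩ := Nat.dvd_of_mem_divisors hr
      have hr0 : 0 < r := Nat.pos_of_mem_divisors hr
      have ht0 : 0 < t := Nat.pos_of_ne_zero fun h0 => by rw [h0, mul_zero] at ht; omega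
      subst ht
      have e1 : r * t / r = t := Nat.mul_div_cancel_left t hr0
      have e2 : r * t * l / r = t * l := by rw [mul_assoc, Nat.mul_div_cancel_left _ hr0]
      rw [e1] at hc
      rw [e1, e2, hW, ← hD, Nat.totient_mul hc]
      have h1 : ∑ ψ ∈ pr r, ‖∑ m ∈ (Icc 1 (Y / l)).filter (fun m => m.Coprime (r * t)),
          (Li (m : ℤ) : ℂ) * ψ (m : ZMod r)‖ ≤ ∑ c ∈ t.divisors, B r (Y / l / c) := by
        simp_rw [hB]
        rw [sum_comm]
        exact sum_le_sum fun ψ _ => char_split ht0 ψ (Y / l)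
      have h2 : (r : ℝ) / ((r.totient * t.totient : ℕ) : ℝ) = ((r : ℝ) / r.totient) * (1 / (t.totient : ℝ)) := by
        push_cast
        rw [div_mul_div_comm, mul_one]
      rw [h2]
      exact mul_le_mul_of_nonneg_left h1 (mul_nonneg (by positivity) (hD0 _))
    · exact hW0 _ _ _
  -- one modulus
  have hq : ∀ q ∈ Icc 1 Q, ‖∑ a ∈ rr q, G f a q / q * e ((a : ℝ) * (A : ℤ) / q) *
        ∑ m ∈ Icc 1 Y, (Li (m : ℤ) : ℂ) * e (s * ((a : ℝ) * m / q))‖ ≤
      ∑ l ∈ q.divisors, ∑ r ∈ (q / l).divisors, W r (q / l / r) l := by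
    intro q hq
    rw [mem_Icc] at hq
    have h1 : ∑ a ∈ rr q, G f a q / q * e ((a : ℝ) * (A : ℤ) / q) *
        ∑ m ∈ Icc 1 Y, (Li (m : ℤ) : ℂ) * e (s * ((a : ℝ) * m / q)) =
        ∑ l ∈ q.divisors, (Li (l : ℤ) : ℂ) * ∑ a ∈ rr q, G f a q / q * e ((a : ℝ) * (A : ℤ) / q) *
          ∑ m ∈ (Icc 1 (Y / l)).filter (fun m => m.Coprime (q / l)), (Li (m : ℤ) : ℂ) *
            e (s * ((a : ℝ) * m / ((q / l : ℕ) : ℝ))) := by
      simp_rw [mul_sum]
      rw [sum_comm (s := q.divisors)]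
      refine sum_congr rfl fun a _ => ?_
      rw [← mul_sum, gcd_split hq.1 Y, mul_sum]
      refine sum_congr rfl fun l hl => ?_
      have hl0 : 0 < l := Nat.pos_of_mem_divisors hl
      obtain ⟨k, hk⟩ := Nat.dvd_of_mem_divisors hl
      have e1 : q / l = k := by rw [hk, Nat.mul_div_cancel_left _ hl0]
      have hk0 : 0 < k := Nat.pos_of_ne_zero fun h0 => by rw [h0, mul_zero] at hk; omega
      rw [mul_sum, e1]
      refine sum_congr rfl fun m _ => ?_
      have e2 : s * ((a : ℝ) * ((l * m : ℕ) : ℝ) / q) = s * ((a : ℝ) * m / (k : ℝ)) := by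
        have hlR : (l : ℝ) ≠ 0 := by exact_mod_cast hl0.ne'
        have hkR : (k : ℝ) ≠ 0 := by exact_mod_cast hk0.ne'
        rw [hk]
        push_cast
        field_simp
      rw [e2, Li_mul]
      push_cast
      ring
    rw [h1]
    refine (norm_sum_le _ _).trans (sum_le_sum fun l hl => ?_)
    rw [norm_mul]
    refine (mul_le_of_le_one_left (norm_nonneg _) (Li_norm _)).trans ?_
    have hl0 : 0 < l := Nat.pos_of_mem_divisors hl
    have hlq := Nat.dvd_of_mem_divisors hl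
    have h2 := hone (q / l) l (Nat.div_pos (Nat.le_of_dvd hq.1 hlq) hl0) hl0
    rw [Nat.div_mul_cancel hlq] at h2
    exact h2
  have hall : ‖∑ q ∈ Icc 1 Q, ∑ a ∈ rr q, G f a q / q * e ((a : ℝ) * (A : ℤ) / q) *
        ∑ m ∈ Icc 1 Y, (Li (m : ℤ) : ℂ) * e (s * ((a : ℝ) * m / q))‖ ≤
      ∑ l ∈ Icc 1 Q, ∑ r ∈ Icc 1 Q, ∑ t ∈ Icc 1 Q, W r t l := by
    refine (norm_sum_le _ _).trans ((sum_le_sum hq).trans ?_)
    refine (sum_div_le Q (fun l k => ∑ r ∈ k.divisors, W r (k / r) l) (fun l k => sum_nonneg fun _ _ => hW0 _ _ _)).trans ?_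
    refine sum_le_sum fun l _ => ?_
    exact sum_div_le Q (fun r t => W r t l) (fun r t => hW0 r t l)
  have hlogQ : ∀ n : ℕ, 1 ≤ n → n ≤ Q → 3 * (1 + Real.log n) ≤ 3 * L := by
    intro n hn hnQ
    have h1 : (0 : ℝ) < n := by exact_mod_cast hn
    have h2 : Real.log n ≤ Real.log Q := Real.log_le_log h1 (by exact_mod_cast hnQ)
    linarith
  have hsum : ∀ l ∈ Icc 1 Q, ∀ t ∈ Icc 1 Q, ∑ r ∈ Icc 1 Q, W r t l ≤
      9 * L ^ 3 * δ * (D (t * l) / ((t * l : ℕ) : ℝ)) := by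
    intro l hl t ht
    rw [mem_Icc] at hl ht
    have hlR : (0 : ℝ) < l := by exact_mod_cast hl.1
    have htR : (0 : ℝ) < t := by exact_mod_cast ht.1
    have h1 : ∑ r ∈ Icc 1 Q, W r t l ≤ ∑ r ∈ Icc 1 Q, (3 * L) * ((3 * L) / t) * D (t * l) *
        ∑ c ∈ t.divisors, B r (Y / l / c) := by
      refine sum_le_sum fun r hr => ?_
      rw [mem_Icc] at hr
      rw [hW]
      have h2 : (r : ℝ) / r.totient ≤ 3 * L := (Pool.Agent.P8H89.CF.frac_le hr.1).trans (hlogQ r hr.1 hr.2)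
      have h3 : 1 / (t.totient : ℝ) ≤ (3 * L) / t := by
        have h4 : (t : ℝ) / t.totient ≤ 3 * L := (Pool.Agent.P8H89.CF.frac_le ht.1).trans (hlogQ t ht.1 ht.2)
        rw [le_div_iff₀ htR]
        calc 1 / (t.totient : ℝ) * t = t / t.totient := by ring
          _ ≤ _ := h4
      have h5 : 0 ≤ ∑ c ∈ t.divisors, B r (Y / l / c) := sum_nonneg fun _ _ => hB0 _ _
      have h6 := hD0 (t * l)
      gcongr
    refine h1.trans ?_
    rw [← mul_sum, sum_comm]
    have h2 : ∀ c ∈ t.divisors, ∑ r ∈ Icc 1 Q, B r (Y / l / c) ≤ δ / l * (c : ℝ)⁻¹ := by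
      intro c hc
      have hc0 : 0 < c := Nat.pos_of_mem_divisors hc
      have hcQ : c ≤ Q := (Nat.divisor_le hc).trans ht.2
      have h3 := hhyp (l * c) (by
        rw [mem_Icc]
        refine ⟨Nat.mul_pos hl.1 hc0, ?_⟩
        rw [sq]
        exact Nat.mul_le_mul hl.2 hcQ) (Y / (l * c)) ((Nat.mul_div_le Y (l * c)).trans hY)
      simp_rw [← hB] at h3
      rw [Nat.div_div_eq_div_mul]
      refine h3.trans (le_of_eq ?_)
      push_cast
      rw [div_mul_eq_div_div, div_eq_mul_inv (δ / l)]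
    have h3 : ∑ c ∈ t.divisors, ∑ r ∈ Icc 1 Q, B r (Y / l / c) ≤ δ / l * L := by
      refine (sum_le_sum h2).trans ?_
      rw [← mul_sum]
      refine mul_le_mul_of_nonneg_left ?_ (by positivity)
      have hsub : t.divisors ⊆ Icc 1 Q := by
        intro j hj
        rw [mem_Icc]
        exact ⟨Nat.pos_of_mem_divisors hj, (Nat.divisor_le hj).trans ht.2⟩
      have h4 := harm (Q := Q)
      rw [hL]
      exact (sum_le_sum_of_subset_of_nonneg hsub fun _ _ _ => by positivity).trans h4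
    have h6 := hD0 (t * l)
    calc _ ≤ (3 * L) * ((3 * L) / t) * D (t * l) * (δ / l * L) := by
          refine mul_le_mul_of_nonneg_left h3 (by positivity)
      _ = _ := by
          push_cast
          field_simp
          ring
  have htot : ∑ l ∈ Icc 1 Q, ∑ r ∈ Icc 1 Q, ∑ t ∈ Icc 1 Q, W r t l ≤
      9 * L ^ 3 * δ * ∑ n ∈ Icc 1 (Q * Q), (n.divisors.card : ℝ) * (D n / n) := by
    have h1 : ∑ l ∈ Icc 1 Q, ∑ r ∈ Icc 1 Q, ∑ t ∈ Icc 1 Q, W r t l ≤
        ∑ l ∈ Icc 1 Q, ∑ t ∈ Icc 1 Q, 9 * L ^ 3 * δ * (D (t * l) / ((t * l : ℕ) : ℝ)) := by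
      refine sum_le_sum fun l hl => ?_
      rw [sum_comm]
      exact sum_le_sum fun t ht => hsum l hl t ht
    refine h1.trans ?_
    rw [sum_comm]
    simp_rw [← mul_sum]
    refine mul_le_mul_of_nonneg_left ?_ (by positivity)
    exact sum_prod_le Q (fun n => D n / (n : ℝ)) (fun n => div_nonneg (hD0 n) (Nat.cast_nonneg n))
  have hlog2 : 1 + Real.log ((Q * Q : ℕ) : ℝ) ≤ 2 * L := by
    push_cast
    rw [Real.log_mul (by positivity) (by positivity)]
    linarith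
  have hlog20 : 0 ≤ 1 + Real.log ((Q * Q : ℕ) : ℝ) := by
    have := Real.log_natCast_nonneg (Q * Q)
    linarith
  have hdd : ∑ n ∈ Icc 1 (Q * Q), (n.divisors.card : ℝ) / n ≤ (2 * L) ^ 2 := by
    have h1 : ∀ n ∈ Icc 1 (Q * Q), (n.divisors.card : ℝ) / n =
        ∑ j ∈ n.divisors, (fun a b : ℕ => (a : ℝ)⁻¹ * (b : ℝ)⁻¹) j (n / j) := by
      intro n hn
      rw [mem_Icc] at hn
      have h2 : ∀ j ∈ n.divisors, (fun a b : ℕ => (a : ℝ)⁻¹ * (b : ℝ)⁻¹) j (n / j) = 1 / n := by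
        intro j hj
        obtain ⟨k, hk⟩ := Nat.dvd_of_mem_divisors hj
        have hj0 : 0 < j := Nat.pos_of_mem_divisors hj
        simp only
        rw [hk, Nat.mul_div_cancel_left _ hj0]
        push_cast
        rw [one_div, mul_inv]
      rw [sum_congr rfl h2, sum_const, nsmul_eq_mul]
      ring
    rw [sum_congr rfl h1]
    refine (sum_div_le (Q * Q) (fun a b : ℕ => (a : ℝ)⁻¹ * (b : ℝ)⁻¹) (fun a b => by positivity)).trans ?_
    rw [← sum_mul_sum, sq]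
    have h3 := (harm (Q := Q * Q)).trans hlog2
    have h4 : 0 ≤ ∑ k ∈ Icc 1 (Q * Q), (k : ℝ)⁻¹ := sum_nonneg fun _ _ => by positivity
    exact mul_le_mul h3 h3 h4 (by positivity)
  have hlast : ∑ n ∈ Icc 1 (Q * Q), (n.divisors.card : ℝ) * (D n / n) ≤ (C * (2 * L) ^ K) * (2 * L) ^ 2 := by
    have h1 : ∀ n ∈ Icc 1 (Q * Q), (n.divisors.card : ℝ) * (D n / n) ≤
        ∑ j ∈ n.divisors, (fun a b : ℕ => ((a.divisors.card : ℝ) * rho f A a) / a * ((b.divisors.card : ℝ) / b)) j (n / j) := by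
      intro n hn
      rw [hD, mul_div_assoc', mul_sum, sum_div]
      refine sum_le_sum fun j hj => ?_
      obtain ⟨k, hk⟩ := Nat.dvd_of_mem_divisors hj
      have hj0 : 0 < j := Nat.pos_of_mem_divisors hj
      simp only
      rw [hk, Nat.mul_div_cancel_left _ hj0, div_mul_div_comm]
      push_cast
      refine div_le_div_of_nonneg_right ?_ (by positivity)
      have h2 : ((j * k).divisors.card : ℝ) ≤ (j.divisors.card : ℝ) * k.divisors.card := by
        exact_mod_cast card_div_mul j k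
      calc ((j * k).divisors.card : ℝ) * (rho f A j : ℝ) ≤
            ((j.divisors.card : ℝ) * k.divisors.card) * rho f A j :=
            mul_le_mul_of_nonneg_right h2 (Nat.cast_nonneg _)
        _ = _ := by ring
    refine (sum_le_sum h1).trans ?_
    refine (sum_div_le (Q * Q) (fun a b : ℕ => ((a.divisors.card : ℝ) * rho f A a) / a * ((b.divisors.card : ℝ) / b))
      (fun a b => by positivity)).trans ?_
    rw [← sum_mul_sum]
    have h2 := hK (Q * Q) A (Nat.mul_pos hQ hQ)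
    have h3 : C * (1 + Real.log ((Q * Q : ℕ) : ℝ)) ^ K ≤ C * (2 * L) ^ K := by gcongr
    exact mul_le_mul (h2.trans h3) hdd (sum_nonneg fun _ _ => by positivity) (by positivity)
  refine hall.trans (htot.trans ?_)
  rw [← hL]
  calc 9 * L ^ 3 * δ * ∑ n ∈ Icc 1 (Q * Q), (n.divisors.card : ℝ) * (D n / n)
      ≤ 9 * L ^ 3 * δ * ((C * (2 * L) ^ K) * (2 * L) ^ 2) := mul_le_mul_of_nonneg_left hlast (by positivity)
    _ = 36 * 2 ^ K * C * L ^ (K + 5) * δ := by
        rw [mul_pow, mul_pow, pow_add]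
        ring

end Pool.Agent.P8H54.GL
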