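import Pool.Agent.P8H14.GL.Stm
import Pool.Agent.P8H14.QP.B1

/-! # Project GL, package GLQ: one modulus -/

set_option autoImplicit false

namespace Pool.Agent.P8H54.GL

open Finset
open Pool.Agent.P8H14.CF (e rr pr)
open Pool.Agent.P8H14.GL
open Pool.Agent.Helper112 (ee ls_ee_add ls_ee_nat ls_ee_int)
open Pool.Agent.TH823.PS (tau ee_mod)

theorem mem_rr {q a : ℕ} : a ∈ rr q ↔ a < q ∧ a.Coprime q := by
  unfold rr
  rw [mem_filter, mem_range]

theorem mem_pr {r : ℕ} {ψ : DirichletCharacter ℂ r} : ψ ∈ pr r ↔ ψ.IsPrimitive := by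
  unfold pr
  simp

theorem e_ee (x : ℝ) : e x = ee x := rfl

/-- characters and primitive characters -/
theorem by_cond (m : ℕ) [NeZero m] (w : DirichletCharacter ℂ m → ℝ) (hw : ∀ χ, 0 ≤ w χ)
    (W : (f : ℕ) → DirichletCharacter ℂ f → ℝ)
    (hW : ∀ f (h : f ∣ m) (ψ : DirichletCharacter ℂ f), ψ.IsPrimitive →
      w (DirichletCharacter.changeLevel h ψ) ≤ W f ψ) :
    ∑ χ : DirichletCharacter ℂ m, w χ ≤ ∑ f ∈ m.divisors, ∑ ψ ∈ pr f, W f ψ := by
  classical
  have h1 : ∀ χ ∈ (univ : Finset (DirichletCharacter ℂ m)), χ.conductor ∈ m.divisors := by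
    intro χ _
    exact Nat.mem_divisors.mpr ⟨χ.conductor_dvd_level, NeZero.ne m⟩
  rw [← sum_fiberwise_of_maps_to h1]
  apply sum_le_sum
  intro f hf
  rw [Nat.mem_divisors] at hf
  have hfm := hf.1
  have h2 : ((univ : Finset (DirichletCharacter ℂ m)).filter (fun χ => χ.conductor = f)) ⊆
      (pr f).image (DirichletCharacter.changeLevel hfm) := by
    intro χ hχ
    rw [mem_filter] at hχ
    obtain ⟨_, hc⟩ := hχ
    subst hc
    rw [mem_image]
    exact ⟨χ.primitiveCharacter, by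
      rw [mem_pr]; exact χ.primitiveCharacter_isPrimitive,
      χ.changeLevel_primitiveCharacter⟩
  calc _ ≤ ∑ χ ∈ (pr f).image (DirichletCharacter.changeLevel hfm), w χ :=
        sum_le_sum_of_subset_of_nonneg h2 fun χ _ _ => hw χ
    _ = ∑ ψ ∈ pr f, w (DirichletCharacter.changeLevel hfm ψ) := by
        rw [sum_image]
        intro x _ y _ hxy
        exact DirichletCharacter.changeLevel_injective hfm hxy
    _ ≤ _ := sum_le_sum fun ψ hψ => hW f hfm ψ (mem_pr.1 hψ)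

/-- additive characters in terms of the Dirichlet characters -/
theorem expand {k : ℕ} [NeZero k] {x : ℕ} (hx : x.Coprime k) :
    (k.totient : ℂ) * ee ((x : ℝ) / k) = ∑ χ : DirichletCharacter ℂ k, χ (x : ZMod k) * tau χ 1 := by
  have hk : 0 < k := Nat.pos_of_ne_zero (NeZero.ne k)
  have hu : IsUnit (x : ZMod k) := (ZMod.isUnit_iff_coprime x k).2 hx
  unfold tau
  simp_rw [mul_sum]
  rw [sum_comm]
  have h1 : ∀ a ∈ Pool.Agent.TH823.PS.rr k, ∑ χ : DirichletCharacter ℂ k,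
      χ (x : ZMod k) * ((starRingEnd ℂ) (χ (a : ZMod k)) * ee (((1 : ℕ) : ℝ) * a / k)) =
      if a = x % k then (k.totient : ℂ) * ee ((x : ℝ) / k) else 0 := by
    intro a ha
    have ha' := Pool.Agent.TH823.PS.mem_rr.1 ha
    have h2 : ∀ χ : DirichletCharacter ℂ k,
        χ (x : ZMod k) * ((starRingEnd ℂ) (χ (a : ZMod k)) * ee (((1 : ℕ) : ℝ) * a / k)) =
        (χ (x : ZMod k) * (starRingEnd ℂ) (χ (a : ZMod k))) * ee (((1 : ℕ) : ℝ) * a / k) := fun χ => by ring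
    simp_rw [h2]
    rw [← sum_mul, Pool.Agent.W66L.sum_chi]
    by_cases hax : a = x % k
    · rw [if_pos hax, if_pos]
      · rw [hax, ee_mod hk, Nat.cast_one, one_mul]
      · rw [hax, ZMod.natCast_mod]
        exact ⟨rfl, hu⟩
    · rw [if_neg hax, if_neg, zero_mul]
      rintro ⟨h3, _⟩
      apply hax
      apply Pool.Agent.TH823.PS.cast_inj ha'.1 (Nat.mod_lt _ hk)
      rw [ZMod.natCast_mod]
      exact h3.symm
  rw [sum_congr rfl h1, Finset.sum_ite_eq']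
  rw [if_pos]
  rw [Pool.Agent.TH823.PS.mem_rr]
  refine ⟨Nat.mod_lt _ hk, ?_⟩
  unfold Nat.Coprime at hx ⊢
  rw [← Nat.gcd_rec, Nat.gcd_comm]
  exact hx

theorem norm_Gs' {r : ℕ} [NeZero r] {ψ : DirichletCharacter ℂ r} (hψ : ψ.IsPrimitive) :
    ‖Pool.Agent.P8H14.QP.Gs ψ‖ = √(r : ℝ) := by
  rw [← Pool.Agent.P8H14.QP.norm_Gs hψ, Real.sqrt_sq (norm_nonneg _)]

/-- the Gauss sum of an imprimitive character -/
theorem norm_tau_one {r t : ℕ} [NeZero r] (ht : 0 < t) {ψ : DirichletCharacter ℂ r} (hψ : ψ.IsPrimitive)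
    (h : r ∣ r * t) :
    ‖tau (DirichletCharacter.changeLevel h ψ) 1‖ ≤ if r.Coprime t then √(r : ℝ) else 0 := by
  rw [Pool.Agent.P8H14.QP.tau_formula ht hψ h 1, norm_mul, norm_Gs' hψ]
  have h1 : ∑ d ∈ t.divisors, (((ArithmeticFunction.moebius d : ℤ) : ℂ) * (starRingEnd ℂ) (ψ (d : ZMod r))) *
        (if t / d ∣ 1 then ((t / d : ℕ) : ℂ) * ψ ((1 / (t / d) : ℕ) : ZMod r) else 0) =
      ((ArithmeticFunction.moebius t : ℤ) : ℂ) * (starRingEnd ℂ) (ψ (t : ZMod r)) := by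
    rw [sum_eq_single t]
    · rw [Nat.div_self ht]
      simp
    · intro d hd hdt
      rw [Nat.mem_divisors] at hd
      rw [if_neg, mul_zero]
      intro h2
      have h3 : t / d = 1 := Nat.dvd_one.1 h2
      obtain ⟨c, hc⟩ := hd.1
      have hd0 : 0 < d := Nat.pos_of_dvd_of_pos hd.1 ht
      rw [hc, Nat.mul_div_cancel_left _ hd0] at h3
      rw [h3, mul_one] at hc
      exact hdt hc.symm
    · intro h2
      exact absurd (Nat.mem_divisors_self t ht.ne') h2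
  rw [h1]
  split_ifs with hc
  · have h2 : ‖((ArithmeticFunction.moebius t : ℤ) : ℂ) * (starRingEnd ℂ) (ψ (t : ZMod r))‖ ≤ 1 := by
      rw [norm_mul, RCLike.norm_conj]
      have h3 : ‖((ArithmeticFunction.moebius t : ℤ) : ℂ)‖ ≤ 1 := by
        rw [Complex.norm_intCast]
        exact_mod_cast ArithmeticFunction.abs_moebius_le_one
      have h4 := DirichletCharacter.norm_le_one ψ (t : ZMod r)
      exact mul_le_one₀ h3 (norm_nonneg _) h4
    calc √(r : ℝ) * _ ≤ √(r : ℝ) * 1 := mul_le_mul_of_nonneg_left h2 (Real.sqrt_nonneg _)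
      _ = _ := mul_one _
  · have h2 : ψ (t : ZMod r) = 0 :=
      ψ.map_nonunit (fun hu => hc ((ZMod.isUnit_iff_coprime t r).1 hu).symm)
    rw [h2]
    simp

/-- the twisted Ramanujan sums -/
theorem norm_tau_n {r w q : ℕ} [NeZero r] (hw : 0 < w) {ψ : DirichletCharacter ℂ r} (hψ : ψ.IsPrimitive)
    (hq : q = r * w) (h : r ∣ q) (n : ℕ) :
    ‖tau (DirichletCharacter.changeLevel h ψ) n‖ ≤ √(r : ℝ) * ∑ j ∈ w.divisors, if j ∣ n then (j : ℝ) else 0 := by
  subst hq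
  rw [Pool.Agent.P8H14.QP.tau_formula hw hψ h n, norm_mul, norm_Gs' hψ]
  refine mul_le_mul_of_nonneg_left ?_ (Real.sqrt_nonneg _)
  rw [← Nat.sum_div_divisors w (fun j => if j ∣ n then (j : ℝ) else 0)]
  refine (norm_sum_le _ _).trans (sum_le_sum fun d _ => ?_)
  split_ifs with hd
  · rw [norm_mul, norm_mul, norm_mul, RCLike.norm_conj, Complex.norm_natCast]
    have h3 : ‖((ArithmeticFunction.moebius d : ℤ) : ℂ)‖ ≤ 1 := by
      rw [Complex.norm_intCast]
      exact_mod_cast ArithmeticFunction.abs_moebius_le_one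
    have h4 := DirichletCharacter.norm_le_one ψ (d : ZMod r)
    have h5 := DirichletCharacter.norm_le_one ψ ((n / (w / d) : ℕ) : ZMod r)
    have h6 : ‖((ArithmeticFunction.moebius d : ℤ) : ℂ)‖ * ‖ψ (d : ZMod r)‖ ≤ 1 :=
      mul_le_one₀ h3 (norm_nonneg _) h4
    have h7 : ((w / d : ℕ) : ℝ) * ‖ψ ((n / (w / d) : ℕ) : ZMod r)‖ ≤ (w / d : ℕ) :=
      mul_le_of_le_one_right (Nat.cast_nonneg _) h5
    calc _ ≤ 1 * ((w / d : ℕ) : ℝ) := mul_le_mul h6 h7 (by positivity) zero_le_one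
      _ = _ := one_mul _
  · rw [mul_zero, norm_zero]

/-- the values of `f` modulo `j` -/
theorem Fv_mod (f : Polynomial ℤ) (A : ℤ) {j b c : ℕ} (h : (j : ℤ) ∣ (b : ℤ) - c) :
    ((j : ℤ) ∣ Fv f b + A) ↔ ((j : ℤ) ∣ Fv f c + A) := by
  have h1 : (j : ℤ) ∣ Fv f b - Fv f c := h.trans (Polynomial.sub_dvd_eval_sub _ _ f)
  have h2 : Fv f b + A = (Fv f c + A) + (Fv f b - Fv f c) := by ring
  rw [h2]
  exact (Int.dvd_add_left h1)

theorem count_mul (f : Polynomial ℤ) (A : ℤ) {j : ℕ} (c : ℕ) :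
    ((range (j * c)).filter (fun b => (j : ℤ) ∣ Fv f b + A)).card = c * rho f A j := by
  induction c with
  | zero => simp
  | succ c ih =>
    rw [mul_add, mul_one, Finset.card_filter, Finset.sum_range_add, ← Finset.card_filter, ih, add_mul, one_mul]
    congr 1
    unfold rho
    rw [Finset.card_filter]
    refine sum_congr rfl fun b _ => ?_
    have h1 := Fv_mod f A (j := j) (b := j * c + b) (c := b) ⟨c, by push_cast; ring⟩
    simp only [h1]

/-- the character sums with the Gauss sums of `f` -/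
theorem norm_H {r w : ℕ} [NeZero r] (hw : 0 < w) {ψ : DirichletCharacter ℂ r} (hψ : ψ.IsPrimitive)
    (f : Polynomial ℤ) (A : ℤ) :
    ‖∑ a ∈ rr (r * w), ψ (a : ZMod r) * (G f a (r * w) / ((r * w : ℕ) : ℂ) * e ((a : ℝ) * (A : ℤ) / ((r * w : ℕ) : ℝ)))‖ ≤
      √(r : ℝ) * ∑ j ∈ w.divisors, (rho f A j : ℝ) := by
  obtain ⟨q, hq⟩ : ∃ q, q = r * w := ⟨_, rfl⟩
  have hr : 0 < r := Nat.pos_of_ne_zero (NeZero.ne r)
  have hq0 : 0 < q := by rw [hq]; exact Nat.mul_pos hr hw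
  have hqR : (0 : ℝ) < q := by exact_mod_cast hq0
  have hqC : (q : ℂ) ≠ 0 := by exact_mod_cast hq0.ne'
  have hinv : (ψ⁻¹).IsPrimitive := by
    rw [DirichletCharacter.isPrimitive_def, DirichletCharacter.conductor_inv]
    exact hψ
  have hdvd : r ∣ q := by rw [hq]; exact dvd_mul_right r w
  obtain ⟨n, hn⟩ : ∃ n : ℕ → ℕ, ∀ b, (n b : ℤ) = (Fv f b + A) % (q : ℤ) :=
    ⟨fun b => ((Fv f b + A) % (q : ℤ)).toNat, fun b => Int.toNat_of_nonneg (Int.emod_nonneg _ (by exact_mod_cast hq0.ne'))⟩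
  have hee : ∀ (a b : ℕ), ee ((a : ℝ) * (Fv f b : ℤ) / q) * ee ((a : ℝ) * (A : ℤ) / q) = ee ((n b : ℝ) * a / q) := by
    intro a b
    rw [← ls_ee_add]
    have h1 : (Fv f b : ℤ) + A = n b + q * ((Fv f b + A) / (q : ℤ)) := by
      rw [hn]
      exact (Int.emod_add_mul_ediv _ _).symm
    have h2 : ((Fv f b : ℤ) : ℝ) + (A : ℤ) = (n b : ℝ) + (q : ℝ) * (((Fv f b + A) / (q : ℤ) : ℤ) : ℝ) := by
      exact_mod_cast h1
    have h3 : (a : ℝ) * (Fv f b : ℤ) / q + (a : ℝ) * (A : ℤ) / q = (n b : ℝ) * a / q +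
        ((a * ((Fv f b + A) / (q : ℤ)) : ℤ) : ℝ) := by
      rw [← add_div, ← mul_add, h2]
      push_cast
      field_simp
    rw [h3, ls_ee_add, ls_ee_int, mul_one]
  have hmain : ∑ a ∈ rr (r * w), ψ (a : ZMod r) *
      (G f a (r * w) / ((r * w : ℕ) : ℂ) * e ((a : ℝ) * (A : ℤ) / ((r * w : ℕ) : ℝ))) =
      (1 / (q : ℂ)) * ∑ b ∈ range q, tau (DirichletCharacter.changeLevel hdvd ψ⁻¹) (n b) := by
    have e0 : ∑ a ∈ rr (r * w), ψ (a : ZMod r) *
        (G f a (r * w) / ((r * w : ℕ) : ℂ) * e ((a : ℝ) * (A : ℤ) / ((r * w : ℕ) : ℝ))) =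
        ∑ a ∈ rr q, ψ (a : ZMod r) * (G f a q / (q : ℂ) * e ((a : ℝ) * (A : ℤ) / (q : ℝ))) := by rw [hq]
    rw [e0]
    have h1 : ∀ a ∈ rr q, ψ (a : ZMod r) * (G f a q / (q : ℂ) * e ((a : ℝ) * (A : ℤ) / (q : ℝ))) =
        (1 / (q : ℂ)) * ∑ b ∈ range q, ψ (a : ZMod r) * ee ((n b : ℝ) * a / q) := by
      intro a _
      rw [← mul_sum]
      have h2 : G f a q * e ((a : ℝ) * (A : ℤ) / (q : ℝ)) = ∑ b ∈ range q, ee ((n b : ℝ) * a / q) := by
        unfold G
        rw [sum_mul]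
        refine sum_congr rfl fun b _ => ?_
        rw [e_ee, e_ee, hee]
      rw [← h2]
      field_simp
    rw [sum_congr rfl h1, ← mul_sum, sum_comm]
    congr 1
    refine sum_congr rfl fun b _ => ?_
    have h3 : tau (DirichletCharacter.changeLevel hdvd ψ⁻¹) (n b) =
        ∑ a ∈ rr q, (starRingEnd ℂ) ((DirichletCharacter.changeLevel hdvd ψ⁻¹) (a : ZMod q)) *
          ee ((n b : ℝ) * a / (q : ℝ)) := rfl
    rw [h3]
    refine sum_congr rfl fun a ha => ?_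
    have ha' := (mem_rr.1 ha).2
    rw [Pool.Agent.TH823.PS.changeLevel_nat hdvd ψ⁻¹ ha', Pool.Agent.P8H14.QP.conj_char, inv_inv]
  rw [hmain, norm_mul]
  have h4 : ‖(1 / (q : ℂ))‖ = 1 / (q : ℝ) := by
    rw [norm_div, norm_one, Complex.norm_natCast]
  rw [h4]
  have h5 : ‖∑ b ∈ range q, tau (DirichletCharacter.changeLevel hdvd ψ⁻¹) (n b)‖ ≤
      √(r : ℝ) * ∑ j ∈ w.divisors, (j : ℝ) * (((q / j : ℕ) : ℝ) * rho f A j) := by
    refine (norm_sum_le _ _).trans ?_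
    refine (sum_le_sum fun b _ => norm_tau_n hw hinv hq hdvd (n b)).trans ?_
    rw [← mul_sum, sum_comm]
    refine mul_le_mul_of_nonneg_left (le_of_eq ?_) (Real.sqrt_nonneg _)
    refine sum_congr rfl fun j hj => ?_
    have hjw := Nat.dvd_of_mem_divisors hj
    have hjq : j ∣ q := by
      rw [hq]
      exact hjw.trans (dvd_mul_left w r)
    have hj0 : 0 < j := Nat.pos_of_mem_divisors hj
    have h6 : ∀ b ∈ range q, (if j ∣ n b then (j : ℝ) else 0) = if (j : ℤ) ∣ Fv f b + A then (j : ℝ) else 0 := by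
      intro b _
      have h7 : j ∣ n b ↔ (j : ℤ) ∣ Fv f b + A := by
        rw [← Int.natCast_dvd_natCast, hn]
        have hjq' : (j : ℤ) ∣ (q : ℤ) := by exact_mod_cast hjq
        constructor
        · intro h8
          have h9 := Int.emod_add_mul_ediv (Fv f b + A) (q : ℤ)
          rw [← h9]
          exact dvd_add h8 (hjq'.trans (dvd_mul_right _ _))
        · intro h8
          rw [Int.emod_def]
          exact dvd_sub h8 (hjq'.trans (dvd_mul_right _ _))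
      simp only [h7]
    rw [sum_congr rfl h6, ← sum_filter, sum_const, nsmul_eq_mul]
    obtain ⟨c, hc⟩ := hjq
    rw [hc, count_mul, Nat.mul_div_cancel_left _ hj0]
    push_cast
    ring
  calc 1 / (q : ℝ) * ‖∑ b ∈ range q, tau (DirichletCharacter.changeLevel hdvd ψ⁻¹) (n b)‖
      ≤ 1 / (q : ℝ) * (√(r : ℝ) * ∑ j ∈ w.divisors, (j : ℝ) * (((q / j : ℕ) : ℝ) * rho f A j)) :=
        mul_le_mul_of_nonneg_left h5 (by positivity)
    _ = √(r : ℝ) * ∑ j ∈ w.divisors, (rho f A j : ℝ) := by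
        rw [mul_left_comm, mul_sum]
        congr 1
        refine sum_congr rfl fun j hj => ?_
        have hjw := Nat.dvd_of_mem_divisors hj
        have hjq : j ∣ q := by
          rw [hq]
          exact hjw.trans (dvd_mul_left w r)
        have hj0 : 0 < j := Nat.pos_of_mem_divisors hj
        obtain ⟨c, hc⟩ := hjq
        have hc0 : (0 : ℝ) < c := by
          have : 0 < c := Nat.pos_of_ne_zero fun h0 => by rw [h0, mul_zero] at hc; omega
          exact_mod_cast this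
        have hjR : (0 : ℝ) < j := by exact_mod_cast hj0
        rw [hc, Nat.mul_div_cancel_left _ hj0]
        push_cast
        field_simp

/-- **GLQ.** -/
theorem glq : S_GLQ := by
  intro f A k l s hk hl hs S v hS
  have : NeZero k := ⟨by omega⟩
  have hφ : (0 : ℝ) < k.totient := by exact_mod_cast Nat.totient_pos.2 hk
  have hφC : (k.totient : ℂ) ≠ 0 := by exact_mod_cast (Nat.totient_pos.2 hk).ne'
  have hkR : (0 : ℝ) < k := by exact_mod_cast hk
  obtain ⟨s', hs'c, hs'⟩ : ∃ s' : ℕ, s'.Coprime k ∧ ∀ x : ℕ, e (s * ((x : ℝ) / k)) = ee (((s' * x : ℕ) : ℝ) / k) := by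
    rcases hs with rfl | rfl
    · refine ⟨1, Nat.coprime_one_left k, fun x => ?_⟩
      rw [e_ee, one_mul, one_mul]
    · refine ⟨k - 1, (Nat.coprime_self_sub_left hk).2 (Nat.coprime_one_left k), fun x => ?_⟩
      rw [e_ee]
      have h1 : (((k - 1) * x : ℕ) : ℝ) / k = -1 * ((x : ℝ) / k) + (x : ℕ) := by
        push_cast [Nat.cast_sub hk]
        field_simp
        ring
      rw [h1, ls_ee_add, ls_ee_nat, mul_one]
  obtain ⟨g, hg⟩ : ∃ g : ℕ → ℂ, ∀ a, g a = G f a (k * l) / ((k * l : ℕ) : ℂ) *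
      e ((a : ℝ) * (A : ℤ) / ((k * l : ℕ) : ℝ)) := ⟨_, fun _ => rfl⟩
  simp_rw [← hg]
  have hcop : ∀ a ∈ rr (k * l), a.Coprime k := fun a ha => (mem_rr.1 ha).2.coprime_dvd_right (dvd_mul_right k l)
  have hmain : (k.totient : ℂ) * ∑ a ∈ rr (k * l), g a * ∑ m ∈ S, v m * e (s * ((a : ℝ) * m / k)) =
      ∑ χ : DirichletCharacter ℂ k, (tau χ 1 * χ (s' : ZMod k)) * (∑ a ∈ rr (k * l), χ (a : ZMod k) * g a) *
        ∑ m ∈ S, v m * χ (m : ZMod k) := by
    have h1 : ∀ χ : DirichletCharacter ℂ k, (tau χ 1 * χ (s' : ZMod k)) * (∑ a ∈ rr (k * l), χ (a : ZMod k) * g a) *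
        ∑ m ∈ S, v m * χ (m : ZMod k) = ∑ a ∈ rr (k * l), ∑ m ∈ S, g a * v m *
          (χ ((s' * (a * m) : ℕ) : ZMod k) * tau χ 1) := by
      intro χ
      rw [mul_assoc (tau χ 1 * χ (s' : ZMod k)), sum_mul_sum, mul_sum]
      refine sum_congr rfl fun a _ => ?_
      rw [mul_sum]
      refine sum_congr rfl fun m _ => ?_
      push_cast
      rw [map_mul, map_mul]
      ring
    simp_rw [h1]
    rw [sum_comm, mul_sum]
    refine sum_congr rfl fun a ha => ?_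
    rw [sum_comm, ← mul_assoc, mul_sum]
    refine sum_congr rfl fun m hm => ?_
    rw [← mul_sum, ← expand (hs'c.mul_left ((hcop a ha).mul_left (hS m hm))), ← hs']
    have h2 : e (s * ((a : ℝ) * m / k)) = e (s * (((a * m : ℕ) : ℝ) / k)) := by
      push_cast
      rfl
    rw [h2]
    ring
  have hnorm : (k.totient : ℝ) * ‖∑ a ∈ rr (k * l), g a * ∑ m ∈ S, v m * e (s * ((a : ℝ) * m / k))‖ ≤
      ∑ χ : DirichletCharacter ℂ k, ‖tau χ 1‖ * ‖∑ a ∈ rr (k * l), χ (a : ZMod k) * g a‖ *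
        ‖∑ m ∈ S, v m * χ (m : ZMod k)‖ := by
    have h1 : (k.totient : ℝ) * ‖∑ a ∈ rr (k * l), g a * ∑ m ∈ S, v m * e (s * ((a : ℝ) * m / k))‖ =
        ‖(k.totient : ℂ) * ∑ a ∈ rr (k * l), g a * ∑ m ∈ S, v m * e (s * ((a : ℝ) * m / k))‖ := by
      rw [norm_mul, Complex.norm_natCast]
    rw [h1, hmain]
    refine (norm_sum_le _ _).trans (sum_le_sum fun χ _ => ?_)
    rw [norm_mul, norm_mul, norm_mul]
    have h2 := DirichletCharacter.norm_le_one χ (s' : ZMod k)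
    have h3 : ‖tau χ 1‖ * ‖χ (s' : ZMod k)‖ ≤ ‖tau χ 1‖ := mul_le_of_le_one_right (norm_nonneg _) h2
    gcongr
  have hbd := by_cond k (fun χ => ‖tau χ 1‖ * ‖∑ a ∈ rr (k * l), χ (a : ZMod k) * g a‖ *
        ‖∑ m ∈ S, v m * χ (m : ZMod k)‖) (fun χ => by positivity)
    (fun r ψ => if r.Coprime (k / r) then (r : ℝ) * (∑ j ∈ (k * l / r).divisors, (rho f A j : ℝ)) *
      ‖∑ m ∈ S, v m * ψ (m : ZMod r)‖ else 0)
    (by
      intro r hr ψ hψ
      obtain ⟨t, ht⟩ := hr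
      have hr0 : 0 < r := Nat.pos_of_ne_zero fun h0 => by rw [h0, zero_mul] at ht; omega
      have ht0 : 0 < t := Nat.pos_of_ne_zero fun h0 => by rw [h0, mul_zero] at ht; omega
      have : NeZero r := ⟨hr0.ne'⟩
      subst ht
      have e1 : r * t / r = t := Nat.mul_div_cancel_left t hr0
      have e2 : r * t * l / r = t * l := by rw [mul_assoc, Nat.mul_div_cancel_left _ hr0]
      rw [e1, e2]
      have h1 := norm_tau_one ht0 hψ (dvd_mul_right r t)
      have h2 := norm_H (r := r) (w := t * l) (Nat.mul_pos ht0 hl) hψ f A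
      have h3 : ∑ a ∈ rr (r * t * l), DirichletCharacter.changeLevel (dvd_mul_right r t) ψ (a : ZMod (r * t)) * g a =
          ∑ a ∈ rr (r * (t * l)), ψ (a : ZMod r) * (G f a (r * (t * l)) / ((r * (t * l) : ℕ) : ℂ) *
            e ((a : ℝ) * (A : ℤ) / ((r * (t * l) : ℕ) : ℝ))) := by
        rw [← mul_assoc]
        refine sum_congr rfl fun a ha => ?_
        rw [Pool.Agent.TH823.PS.changeLevel_nat _ ψ (hcop a ha), hg]
      have h4 : ∑ m ∈ S, v m * DirichletCharacter.changeLevel (dvd_mul_right r t) ψ (m : ZMod (r * t)) =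
          ∑ m ∈ S, v m * ψ (m : ZMod r) := by
        refine sum_congr rfl fun m hm => ?_
        rw [Pool.Agent.TH823.PS.changeLevel_nat _ ψ (hS m hm)]
      rw [h3, h4]
      have h5 : 0 ≤ ∑ j ∈ (t * l).divisors, (rho f A j : ℝ) := sum_nonneg fun _ _ => Nat.cast_nonneg _
      split_ifs with hc
      · rw [if_pos hc] at h1
        calc _ ≤ √(r : ℝ) * (√(r : ℝ) * ∑ j ∈ (t * l).divisors, (rho f A j : ℝ)) *
              ‖∑ m ∈ S, v m * ψ (m : ZMod r)‖ := by gcongr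
          _ = (√(r : ℝ) * √(r : ℝ)) * (∑ j ∈ (t * l).divisors, (rho f A j : ℝ)) *
              ‖∑ m ∈ S, v m * ψ (m : ZMod r)‖ := by ring
          _ = _ := by rw [Real.mul_self_sqrt (Nat.cast_nonneg r)]
      · rw [if_neg hc] at h1
        have h6 : ‖tau (DirichletCharacter.changeLevel (dvd_mul_right r t) ψ) 1‖ = 0 := le_antisymm h1 (norm_nonneg _)
        rw [h6, zero_mul, zero_mul])
  have hfin : ‖∑ a ∈ rr (k * l), g a * ∑ m ∈ S, v m * e (s * ((a : ℝ) * m / k))‖ ≤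
      (1 / (k.totient : ℝ)) * ∑ r ∈ k.divisors, ∑ ψ ∈ pr r, (if r.Coprime (k / r) then
        (r : ℝ) * (∑ j ∈ (k * l / r).divisors, (rho f A j : ℝ)) * ‖∑ m ∈ S, v m * ψ (m : ZMod r)‖ else 0) := by
    rw [one_div, le_inv_mul_iff₀ hφ]
    exact hnorm.trans hbd
  refine hfin.trans (le_of_eq ?_)
  rw [mul_sum, sum_filter]
  refine sum_congr rfl fun r _ => ?_
  split_ifs with hc
  · rw [← mul_sum]
    ring
  · simp

end Pool.Agent.P8H54.GL
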